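import Pool.Agent.Y789.KM.Fin
import Pool.Agent.Y789.KM.Perm
import Pool.Agent.Results.MP_850839_an.RandomRotations

/-!
# Random matchings of positions with orientations, for `δ`-tubes
-/

set_option autoImplicit false

open MeasureTheory Set
open scoped ENNReal

namespace Pool.Agent.Q184.RM

open Pool.Agent.Results.MP_850839_an.RandomRotations (Rn tube mult rhs Separated ap move)
open Pool.Agent.Y789.KM

variable {n : ℕ} {ι : Type} [Fintype ι]

/-- the centred tubes -/
def cen (δ : ℝ) (e : ι → Rn n) : ι → Set (Rn n) := fun i => tube δ 0 (e i)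

lemma mem_tube {δ : ℝ} {a e y : Rn n} : y ∈ tube δ a e ↔ y - a ∈ tube δ 0 e := by
  simp only [tube, Set.mem_ofPred_eq, sub_zero]

lemma tube_closed (δ : ℝ) (a e : Rn n) : IsClosed (tube δ a e) := by
  have h1 : Continuous (fun y : Rn n => |inner ℝ (y - a) e|) := by fun_prop
  have h2 : Continuous (fun y : Rn n => ‖(y - a) - (inner ℝ (y - a) e) • e‖) := by fun_prop
  exact (isClosed_le h1 continuous_const).inter (isClosed_le h2 continuous_const)

lemma tube_meas (δ : ℝ) (a e : Rn n) : MeasurableSet (tube δ a e) := (tube_closed δ a e).measurableSet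

lemma mult_nonneg (δ : ℝ) (a e : ι → Rn n) (y : Rn n) : 0 ≤ mult δ a e y :=
  Finset.sum_nonneg fun _ _ => indicator_nonneg (fun _ _ => zero_le_one) _

lemma mult_le (δ : ℝ) (a e : ι → Rn n) (y : Rn n) : mult δ a e y ≤ Fintype.card ι := by
  unfold mult
  calc ∑ i, (tube δ (a i) (e i)).indicator (fun _ => (1 : ℝ)) y ≤ ∑ _i : ι, (1 : ℝ) :=
        Finset.sum_le_sum fun i _ => indicator_le_self' (fun _ _ => zero_le_one) y
    _ = _ := by simp

lemma mult_meas (δ : ℝ) (a e : ι → Rn n) : Measurable (mult δ a e) := by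
  unfold mult
  exact Finset.measurable_fun_sum _ fun i _ => measurable_const.indicator (tube_meas _ _ _)

lemma enorm_mult (δ : ℝ) (a e : ι → Rn n) (y : Rn n) : ‖mult δ a e y‖ₑ = T (cen δ e) a y := by
  rw [Real.enorm_of_nonneg (mult_nonneg δ a e y)]
  unfold mult T cen
  rw [ENNReal.ofReal_sum_of_nonneg fun i _ => indicator_nonneg (fun _ _ => zero_le_one) y]
  refine Finset.sum_congr rfl fun i _ => ?_
  by_cases h : y ∈ tube δ (a i) (e i)
  · rw [indicator_of_mem h, indicator_of_mem (mem_tube.1 h), ENNReal.ofReal_one]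
  · rw [indicator_of_notMem h, indicator_of_notMem (fun h' => h (mem_tube.2 h')),
      ENNReal.ofReal_zero]

lemma eLp_pow (δ : ℝ) (a e : ι → Rn n) {q : ℝ} (hq : 0 < q) :
    eLpNorm (mult δ a e) (ENNReal.ofReal q) volume ^ q = ∫⁻ y, T (cen δ e) a y ^ q := by
  rw [eLpNorm_eq_lintegral_rpow_enorm_toReal (ENNReal.ofReal_pos.2 hq).ne' ENNReal.ofReal_ne_top,
    ENNReal.toReal_ofReal hq.le, ← ENNReal.rpow_mul, one_div_mul_cancel hq.ne', ENNReal.rpow_one]
  exact lintegral_congr fun y => by rw [enorm_mult]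

/-- all the tubes centred at the origin -/
theorem bush (hn : 3 ≤ n) {q : ℝ} (hq : (n : ℝ) / ((n : ℝ) - 1) < q) : ∃ C : ℝ, 0 < C ∧
    ∀ (ι : Type) [Fintype ι] (e : ι → Rn n) (δ : ℝ), Separated δ e →
      eLpNorm (mult δ 0 e) (ENNReal.ofReal q) volume ≤
        ENNReal.ofReal (C * rhs n q δ (Fintype.card ι)) := by
  obtain ⟨C, hC, h⟩ := (Pool.Agent.Results.MP_850839_an.RandomRotations.result n hn).2.2 q hq
  refine ⟨C, hC, fun ι _ e δ hs => ?_⟩
  obtain ⟨g, hg⟩ := h ι 0 e δ hs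
  have e0 : move g (0 : ι → Rn n) = 0 := by
    funext i
    show g 0 = 0
    exact map_zero g
  rw [e0] at hg
  exact hg

/-- the mean over pairwise nearly independent positions -/
theorem mean {q : ℝ} (hq1 : 1 ≤ q) (hq2 : q ≤ 2) {Ω : Type*} [MeasurableSpace Ω] (P : Measure Ω)
    [IsProbabilityMeasure P] (ν : Measure (Rn n)) [IsProbabilityMeasure ν] {A : ℝ≥0∞}
    (hA : 1 ≤ A) {a : Ω → ι → Rn n} (h : Pairwise' P ν A a) (δ : ℝ) (e : ι → Rn n) :
    ∫⁻ x, eLpNorm (mult δ (a x) e) (ENNReal.ofReal q) volume ^ q ∂P ≤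
      6 * A * eLpNorm (mult δ 0 e) (ENNReal.ofReal q) volume ^ q := by
  have hq0 : 0 < q := by linarith
  simp only [eLp_pow δ _ e hq0]
  exact gen volume P ν hA h (fun i => tube_meas _ _ _) hq1 hq2

/-- the right-hand side of the conjectured inequality, without the constant, for `q` in `(1, ∞]` -/
noncomputable def bd (n : ℕ) (q : ℝ≥0∞) (δ : ℝ) (N : ℕ) : ℝ :=
  δ ^ (((n : ℝ) - 1) * (q⁻¹).toReal) * (N : ℝ) ^ (1 - (q⁻¹).toReal / ((n : ℝ) - 1))

lemma bd_ofReal (n : ℕ) {q : ℝ} (hq : 0 < q) (δ : ℝ) (N : ℕ) :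
    bd n (ENNReal.ofReal q) δ N = rhs n q δ N := by
  unfold bd rhs
  rw [ENNReal.toReal_inv, ENNReal.toReal_ofReal hq.le]
  congr 2
  rw [div_eq_mul_inv, one_div, mul_inv]

lemma rhs_nonneg (n : ℕ) (q : ℝ) {δ : ℝ} (hδ : 0 < δ) (N : ℕ) : 0 ≤ rhs n q δ N := by
  unfold rhs
  positivity

/-- from one exponent to all larger ones -/
theorem up (hn : 3 ≤ n) {q₀ K δ : ℝ} (hq₀ : 1 < q₀) (hK : 1 ≤ K) (hδ : 0 < δ) (a e : ι → Rn n)
    (h : eLpNorm (mult δ a e) (ENNReal.ofReal q₀) volume ≤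
      ENNReal.ofReal (K * rhs n q₀ δ (Fintype.card ι))) {q : ℝ≥0∞} (hq : ENNReal.ofReal q₀ ≤ q) :
    eLpNorm (mult δ a e) q volume ≤ ENNReal.ofReal (K * bd n q δ (Fintype.card ι)) := by
  have hn2 : (2 : ℝ) ≤ (n : ℝ) - 1 := by
    have : (3 : ℝ) ≤ n := by exact_mod_cast hn
    linarith
  rcases Nat.eq_zero_or_pos (Fintype.card ι) with hN | hN
  · have he : IsEmpty ι := Fintype.card_eq_zero_iff.1 hN
    have h0 : mult δ a e = 0 := by
      funext y
      unfold mult
      simp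
    rw [h0, eLpNorm_zero]
    exact zero_le
  have hN1 : (1 : ℝ) ≤ Fintype.card ι := by exact_mod_cast hN
  set N : ℕ := Fintype.card ι with hNdef
  have hN0 : (0 : ℝ) < N := by linarith
  rcases eq_or_ne q ∞ with rfl | hqt
  · have e1 : bd n ∞ δ N = N := by
      unfold bd
      simp
    rw [e1]
    refine (eLpNormEssSup_le_of_ae_bound (C := (N : ℝ)) (ae_of_all _ fun y => ?_)).trans ?_
    · rw [Real.norm_of_nonneg (mult_nonneg δ a e y)]
      exact mult_le δ a e y
    · exact ENNReal.ofReal_le_ofReal (by nlinarith)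
  · obtain ⟨r, hr0, rfl⟩ : ∃ r : ℝ, 0 ≤ r ∧ q = ENNReal.ofReal r :=
      ⟨q.toReal, ENNReal.toReal_nonneg, (ENNReal.ofReal_toReal hqt).symm⟩
    have hr : q₀ ≤ r := by
      rwa [ENNReal.ofReal_le_ofReal_iff hr0] at hq
    have hr1 : 0 < r := by linarith
    have hq0 : 0 < q₀ := by linarith
    rw [bd_ofReal n hr1]
    have h1 : eLpNorm (mult δ a e) (ENNReal.ofReal r) volume ^ r ≤
        (N : ℝ≥0∞) ^ (r - q₀) * eLpNorm (mult δ a e) (ENNReal.ofReal q₀) volume ^ q₀ := by
      rw [eLp_pow δ a e hr1, eLp_pow δ a e hq0, ← lintegral_const_mul' _ _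
        (ENNReal.rpow_ne_top_of_nonneg (by linarith) (ENNReal.natCast_ne_top _))]
      refine lintegral_mono fun y => ?_
      have h2 : T (cen δ e) a y ≤ N := by
        rw [← enorm_mult, Real.enorm_of_nonneg (mult_nonneg δ a e y), ← ENNReal.ofReal_natCast]
        exact ENNReal.ofReal_le_ofReal (mult_le δ a e y)
      have h3 : T (cen δ e) a y ^ r = T (cen δ e) a y ^ (r - q₀) * T (cen δ e) a y ^ q₀ := by
        rw [← ENNReal.rpow_add_of_nonneg _ _ (by linarith) hq0.le, sub_add_cancel]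
      simp only
      rw [h3]
      exact mul_le_mul' (ENNReal.rpow_le_rpow h2 (by linarith)) le_rfl
    have h4 : (N : ℝ≥0∞) ^ (r - q₀) * eLpNorm (mult δ a e) (ENNReal.ofReal q₀) volume ^ q₀ ≤
        ENNReal.ofReal (K * rhs n r δ N) ^ r := by
      have hR0 := rhs_nonneg n q₀ hδ N
      have hR1 := rhs_nonneg n r hδ N
      calc (N : ℝ≥0∞) ^ (r - q₀) * eLpNorm (mult δ a e) (ENNReal.ofReal q₀) volume ^ q₀ ≤
            (N : ℝ≥0∞) ^ (r - q₀) * ENNReal.ofReal (K * rhs n q₀ δ N) ^ q₀ :=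
            mul_le_mul' le_rfl (ENNReal.rpow_le_rpow h hq0.le)
        _ = ENNReal.ofReal ((N : ℝ) ^ (r - q₀) * (K * rhs n q₀ δ N) ^ q₀) := by
            rw [ENNReal.ofReal_rpow_of_nonneg (by positivity) hq0.le, ← ENNReal.ofReal_natCast,
              ENNReal.ofReal_rpow_of_nonneg hN0.le (by linarith),
              ← ENNReal.ofReal_mul (by positivity)]
        _ ≤ ENNReal.ofReal ((K * rhs n r δ N) ^ r) := by
            apply ENNReal.ofReal_le_ofReal
            have e1 : ∀ s : ℝ, 0 < s → rhs n s δ N ^ s =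
                δ ^ ((n : ℝ) - 1) * (N : ℝ) ^ (s - 1 / ((n : ℝ) - 1)) := by
              intro s hs
              unfold rhs
              rw [Real.mul_rpow (by positivity) (by positivity), ← Real.rpow_mul hδ.le,
                ← Real.rpow_mul hN0.le]
              congr 2
              · field_simp
              · field_simp
            rw [Real.mul_rpow (by linarith) hR0, Real.mul_rpow (by linarith) hR1, e1 q₀ hq0,
              e1 r hr1]
            have e2 : (N : ℝ) ^ (r - q₀) * (N : ℝ) ^ (q₀ - 1 / ((n : ℝ) - 1)) =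
                (N : ℝ) ^ (r - 1 / ((n : ℝ) - 1)) := by
              rw [← Real.rpow_add hN0]
              congr 1
              ring
            calc (N : ℝ) ^ (r - q₀) * (K ^ q₀ * (δ ^ ((n : ℝ) - 1) *
                  (N : ℝ) ^ (q₀ - 1 / ((n : ℝ) - 1)))) =
                  K ^ q₀ * (δ ^ ((n : ℝ) - 1) * ((N : ℝ) ^ (r - q₀) *
                    (N : ℝ) ^ (q₀ - 1 / ((n : ℝ) - 1)))) := by ring
              _ = K ^ q₀ * (δ ^ ((n : ℝ) - 1) * (N : ℝ) ^ (r - 1 / ((n : ℝ) - 1))) := by rw [e2]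
              _ ≤ K ^ r * (δ ^ ((n : ℝ) - 1) * (N : ℝ) ^ (r - 1 / ((n : ℝ) - 1))) := by
                  refine mul_le_mul_of_nonneg_right ?_ (by positivity)
                  exact Real.rpow_le_rpow_of_exponent_le hK hr
        _ = _ := by
            rw [ENNReal.ofReal_rpow_of_nonneg (by positivity) hr1.le]
    exact (ENNReal.rpow_le_rpow_iff hr1).1 (h1.trans h4)

/-- **random positions** -/
theorem most (hn : 3 ≤ n) {q₀ : ℝ} (hq₀ : (n : ℝ) / ((n : ℝ) - 1) < q₀) : ∃ C : ℝ, 1 ≤ C ∧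
    ∀ (Ω : Type) [MeasurableSpace Ω] (P : Measure Ω) [IsProbabilityMeasure P]
      (ν : Measure (Rn n)) [IsProbabilityMeasure ν] (A : ℝ), 1 ≤ A →
    ∀ (ι : Type) [Fintype ι] (a : Ω → ι → Rn n), Pairwise' P ν (ENNReal.ofReal A) a →
    ∀ (e : ι → Rn n) (δ : ℝ), Separated δ e → ∀ η : ℝ, 0 < η → η ≤ 1 →
      P {x | ¬ ∀ q : ℝ≥0∞, ENNReal.ofReal q₀ ≤ q → eLpNorm (mult δ (a x) e) q volume ≤
        ENNReal.ofReal (C * A / η * bd n q δ (Fintype.card ι))} ≤ ENNReal.ofReal η := by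
  have hn2 : (2 : ℝ) ≤ (n : ℝ) - 1 := by
    have : (3 : ℝ) ≤ n := by exact_mod_cast hn
    linarith
  set q₁ : ℝ := min q₀ 2 with hq₁
  have h1 : (n : ℝ) / ((n : ℝ) - 1) < q₁ := by
    refine lt_min hq₀ ?_
    rw [div_lt_iff₀ (by linarith)]
    linarith
  have h2 : 1 < q₁ := by
    refine lt_of_le_of_lt ?_ h1
    rw [le_div_iff₀ (by linarith)]
    linarith
  have h3 : q₁ ≤ 2 := min_le_right _ _
  have hq0 : 0 < q₁ := by linarith
  obtain ⟨C, hC, hb⟩ := bush hn h1
  refine ⟨6 * (1 + C), by linarith, ?_⟩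
  intro Ω _ P _ ν _ A hA ι _ a ha e δ hs η hη hη1
  have hδ : 0 < δ := hs.1
  have hA' : (1 : ℝ≥0∞) ≤ ENNReal.ofReal A := by
    rw [← ENNReal.ofReal_one]
    exact ENNReal.ofReal_le_ofReal hA
  have hmean := mean h2.le h3 P ν hA' ha δ e
  set R : ℝ := rhs n q₁ δ (Fintype.card ι) with hR
  have hR0 : 0 ≤ R := rhs_nonneg _ _ hδ _
  have hb1 := hb ι e δ hs
  have hM : ∫⁻ x, eLpNorm (mult δ (a x) e) (ENNReal.ofReal q₁) volume ^ q₁ ∂P ≤
      ENNReal.ofReal (6 * A * (C * R) ^ q₁) := by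
    refine hmean.trans ?_
    calc 6 * ENNReal.ofReal A * eLpNorm (mult δ 0 e) (ENNReal.ofReal q₁) volume ^ q₁ ≤
          6 * ENNReal.ofReal A * ENNReal.ofReal (C * R) ^ q₁ :=
          mul_le_mul' le_rfl (ENNReal.rpow_le_rpow hb1 hq0.le)
      _ = _ := by
          rw [ENNReal.ofReal_rpow_of_nonneg (by positivity) hq0.le, ENNReal.ofReal_mul
            (by positivity), ENNReal.ofReal_mul (by norm_num), ENNReal.ofReal_ofNat]
  -- the constant
  set K : ℝ := 6 * (1 + C) * A / η with hK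
  have hK1 : 1 ≤ K := by
    rw [hK, le_div_iff₀ hη]
    nlinarith
  have hKq : 6 * A * (C * R) ^ q₁ ≤ η * (K * R) ^ q₁ := by
    have e1 : K * R = (6 * A / η) * ((1 + C) * R) := by rw [hK]; ring
    rw [e1, Real.mul_rpow (x := 6 * A / η) (y := (1 + C) * R) (by positivity) (by positivity)]
    have h6 : 1 ≤ 6 * A / η := by rw [le_div_iff₀ hη]; nlinarith
    have h7 : 6 * A / η ≤ (6 * A / η) ^ q₁ := by
      calc 6 * A / η = (6 * A / η) ^ (1 : ℝ) := (Real.rpow_one _).symm
        _ ≤ _ := Real.rpow_le_rpow_of_exponent_le h6 h2.le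
    have h8 : (C * R) ^ q₁ ≤ ((1 + C) * R) ^ q₁ :=
      Real.rpow_le_rpow (by positivity) (by nlinarith) hq0.le
    calc 6 * A * (C * R) ^ q₁ = η * ((6 * A / η) * (C * R) ^ q₁) := by field_simp
      _ ≤ η * ((6 * A / η) ^ q₁ * ((1 + C) * R) ^ q₁) := by
          refine mul_le_mul_of_nonneg_left ?_ hη.le
          exact mul_le_mul h7 h8 (by positivity) (by positivity)
  -- the bad set
  have hsub : {x | ¬ ∀ q : ℝ≥0∞, ENNReal.ofReal q₀ ≤ q → eLpNorm (mult δ (a x) e) q volume ≤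
        ENNReal.ofReal (K * bd n q δ (Fintype.card ι))} ⊆
      {x | ENNReal.ofReal ((K * R) ^ q₁) <
        eLpNorm (mult δ (a x) e) (ENNReal.ofReal q₁) volume ^ q₁} := by
    intro x hx
    simp only [Set.mem_ofPred_eq] at hx ⊢
    by_contra hcon
    push Not at hcon
    apply hx
    intro q hq
    refine up hn h2 hK1 hδ (a x) e ?_ ((ENNReal.ofReal_le_ofReal (min_le_left _ _)).trans hq)
    rw [← ENNReal.ofReal_rpow_of_nonneg (by positivity) hq0.le] at hcon
    exact (ENNReal.rpow_le_rpow_iff hq0).1 hcon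
  refine (measure_mono hsub).trans ?_
  have hKR : 0 ≤ (K * R) ^ q₁ := by positivity
  rcases hKR.eq_or_lt with h0 | hpos
  · -- no tubes
    have hz : ∫⁻ x, eLpNorm (mult δ (a x) e) (ENNReal.ofReal q₁) volume ^ q₁ ∂P ≤ 0 := by
      refine hM.trans ?_
      rw [← h0, mul_zero] at hKq
      rw [ENNReal.ofReal_of_nonpos hKq]
    have hm : AEMeasurable (fun x => eLpNorm (mult δ (a x) e) (ENNReal.ofReal q₁) volume ^ q₁) P := by
      have e2 : (fun x => eLpNorm (mult δ (a x) e) (ENNReal.ofReal q₁) volume ^ q₁) =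
          fun x => ∫⁻ y, T (cen δ e) (a x) y ^ q₁ := by
        funext x
        exact eLp_pow δ (a x) e hq0
      rw [e2]
      apply Measurable.aemeasurable
      have h9 : Measurable (fun z : Ω × Rn n => T (cen δ e) (a z.1) z.2 ^ q₁) :=
        (T_meas (a := fun z : Ω × Rn n => a z.1) (g := fun z : Ω × Rn n => z.2)
          (fun i => tube_meas δ 0 (e i)) (fun i => (ha.meas i).comp measurable_fst)
          measurable_snd).pow_const q₁
      exact h9.lintegral_prod_right'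
    have hae := (lintegral_eq_zero_iff' hm).1 (le_antisymm hz zero_le)
    have h10 : P {x | ENNReal.ofReal ((K * R) ^ q₁) <
        eLpNorm (mult δ (a x) e) (ENNReal.ofReal q₁) volume ^ q₁} = 0 := by
      rw [← h0, ENNReal.ofReal_zero]
      refine measure_mono_null ?_ hae
      intro x hx
      simp only [Set.mem_ofPred_eq] at hx
      exact hx.ne'
    rw [h10]
    exact zero_le
  · have h11 := mul_meas_ge_le_lintegral₀ (μ := P)
      (f := fun x => eLpNorm (mult δ (a x) e) (ENNReal.ofReal q₁) volume ^ q₁) (by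
        have e2 : (fun x => eLpNorm (mult δ (a x) e) (ENNReal.ofReal q₁) volume ^ q₁) =
            fun x => ∫⁻ y, T (cen δ e) (a x) y ^ q₁ := by
          funext x
          exact eLp_pow δ (a x) e hq0
        rw [e2]
        apply Measurable.aemeasurable
        have h9 : Measurable (fun z : Ω × Rn n => T (cen δ e) (a z.1) z.2 ^ q₁) :=
          (T_meas (a := fun z : Ω × Rn n => a z.1) (g := fun z : Ω × Rn n => z.2)
            (fun i => tube_meas δ 0 (e i)) (fun i => (ha.meas i).comp measurable_fst)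
            measurable_snd).pow_const q₁
        exact h9.lintegral_prod_right') (ENNReal.ofReal ((K * R) ^ q₁))
    have h12 : ENNReal.ofReal ((K * R) ^ q₁) * P {x | ENNReal.ofReal ((K * R) ^ q₁) <
        eLpNorm (mult δ (a x) e) (ENNReal.ofReal q₁) volume ^ q₁} ≤
        ENNReal.ofReal ((K * R) ^ q₁) * ENNReal.ofReal η := by
      calc _ ≤ ENNReal.ofReal ((K * R) ^ q₁) * P {x | ENNReal.ofReal ((K * R) ^ q₁) ≤
            eLpNorm (mult δ (a x) e) (ENNReal.ofReal q₁) volume ^ q₁} := by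
            refine mul_le_mul' le_rfl (measure_mono fun x hx => ?_)
            simp only [Set.mem_ofPred_eq] at hx ⊢
            exact hx.le
        _ ≤ _ := h11
        _ ≤ _ := hM
        _ ≤ ENNReal.ofReal (η * (K * R) ^ q₁) := ENNReal.ofReal_le_ofReal hKq
        _ = _ := by rw [mul_comm η, ENNReal.ofReal_mul (by positivity)]
    exact (ENNReal.mul_le_mul_iff_right (ENNReal.ofReal_pos.2 hpos).ne'
      ENNReal.ofReal_ne_top).1 h12

end Pool.Agent.Q184.RM
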