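import Pool.Agent.Q184.RM.Main

/-!
# Bad matchings are exponentially rare
-/

set_option autoImplicit false

open MeasureTheory Set
open scoped ENNReal

namespace Pool.Agent.Q184.RM

open Pool.Agent.Results.MP_850839_an.RandomRotations (Rn tube mult rhs Separated ap move)
open Pool.Agent.Y789.KM

variable {n : ℕ} {ι : Type} [Fintype ι]

/-- the norm of the indicator of one tube -/
lemma one_tube (hn : 3 ≤ n) {q : ℝ} (hq : (n : ℝ) / ((n : ℝ) - 1) < q) : ∃ C : ℝ, 0 < C ∧
    ∀ (a e : Rn n) (δ : ℝ), 0 < δ → δ < 1 → ‖e‖ = 1 →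
      eLpNorm ((tube δ a e).indicator (fun _ => (1 : ℝ))) (ENNReal.ofReal q) volume ≤
        ENNReal.ofReal (C * δ ^ (((n : ℝ) - 1) / q)) := by
  obtain ⟨C, hC, h⟩ := bush hn hq
  refine ⟨C, hC, fun a e δ hδ hδ1 he => ?_⟩
  have h1 := h Unit (fun _ => e) δ ⟨hδ, hδ1, fun _ => he, fun i j hij => absurd rfl hij⟩
  have e1 : mult δ (0 : Unit → Rn n) (fun _ => e) = (tube δ 0 e).indicator (fun _ => (1 : ℝ)) := by
    funext y
    unfold mult
    simp
  have e2 : rhs n q δ (Fintype.card Unit) = δ ^ (((n : ℝ) - 1) / q) := by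
    unfold rhs
    simp
  rw [e1, e2] at h1
  refine le_trans (le_of_eq ?_) h1
  have hm : Measurable ((tube δ (0 : Rn n) e).indicator (fun _ => (1 : ℝ))) :=
    measurable_const.indicator (tube_meas δ 0 e)
  rw [← eLpNorm_comp_measurePreserving hm.aestronglyMeasurable
    (measurePreserving_sub_right volume a)]
  congr 1
  funext y
  simp only [Function.comp]
  by_cases hy : y ∈ tube δ a e
  · rw [indicator_of_mem hy, indicator_of_mem (mem_tube.1 hy)]
  · rw [indicator_of_notMem hy, indicator_of_notMem (fun h' => hy (mem_tube.2 h'))]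

lemma mult_fin (hn : 3 ≤ n) {q : ℝ} (hq : (n : ℝ) / ((n : ℝ) - 1) < q) (hq1 : 1 ≤ q) {δ : ℝ}
    (a : ι → Rn n) {e : ι → Rn n} (hs : Separated δ e) :
    eLpNorm (mult δ a e) (ENNReal.ofReal q) volume ≠ ∞ := by
  obtain ⟨C, hC, h⟩ := one_tube hn hq
  have e1 : mult δ a e = ∑ i, (tube δ (a i) (e i)).indicator (fun _ => (1 : ℝ)) := by
    funext y
    unfold mult
    simp
  rw [e1]
  refine ne_top_of_le_ne_top ?_ (eLpNorm_sum_le (fun i _ =>
    ((measurable_const (a := (1 : ℝ))).indicator (tube_meas _ _ _)).aestronglyMeasurable) ?_)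
  · exact ENNReal.sum_ne_top.2 fun i _ => ne_top_of_le_ne_top ENNReal.ofReal_ne_top
      (h (a i) (e i) δ hs.1 hs.2.1 (hs.2.2.1 i))
  · rw [← ENNReal.ofReal_one]
    exact ENNReal.ofReal_le_ofReal hq1

/-- **exponentially rare** -/
theorem rare (hn : 3 ≤ n) {q₀ : ℝ} (hq₀ : (n : ℝ) / ((n : ℝ) - 1) < q₀) : ∃ C c : ℝ, 1 ≤ C ∧
    0 < c ∧ ∀ (ι : Type) [Fintype ι] (e : ι → Rn n) (δ : ℝ), Separated δ e →
    ∀ b : ι → Rn n,
      (Nat.card {τ : Equiv.Perm ι // ¬ ∀ q : ℝ≥0∞, ENNReal.ofReal q₀ ≤ q →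
        eLpNorm (mult δ (fun i => b (τ i)) e) q volume ≤
          ENNReal.ofReal (C * bd n q δ (Fintype.card ι))} : ℝ) ≤
      Nat.card (Equiv.Perm ι) * Real.exp (-(c * (Fintype.card ι : ℝ) ^ (1 - 2 / (n : ℝ)))) := by
  classical
  have hn2 : (2 : ℝ) ≤ (n : ℝ) - 1 := by
    have : (3 : ℝ) ≤ n := by exact_mod_cast hn
    linarith
  have hn0 : (0 : ℝ) < n := by linarith
  set q₁ : ℝ := min q₀ 2 with hq₁
  have h1 : (n : ℝ) / ((n : ℝ) - 1) < q₁ := by
    refine lt_min hq₀ ?_
    rw [div_lt_iff₀ (by linarith)]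
    linarith
  have h2 : 1 < q₁ := by
    refine lt_of_le_of_lt ?_ h1
    rw [le_div_iff₀ (by linarith)]
    linarith
  have h3 : q₁ ≤ 2 := min_le_right _ _
  have hq0 : 0 < q₁ := by linarith
  obtain ⟨C, hC, hb⟩ := bush hn h1
  obtain ⟨C₁, hC₁, ht⟩ := one_tube hn h1
  refine ⟨12 * C + 1, 1 / (32 * C₁ ^ 2), by linarith, by positivity, ?_⟩
  intro ι _ e δ hs b
  have hδ : 0 < δ := hs.1
  rcases Nat.eq_zero_or_pos (Fintype.card ι) with hN | hN
  · -- no tubes
    have he : IsEmpty ι := Fintype.card_eq_zero_iff.1 hN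
    have hempty : IsEmpty {τ : Equiv.Perm ι // ¬ ∀ q : ℝ≥0∞, ENNReal.ofReal q₀ ≤ q →
        eLpNorm (mult δ (fun i => b (τ i)) e) q volume ≤
          ENNReal.ofReal ((12 * C + 1) * bd n q δ (Fintype.card ι))} := by
      constructor
      rintro ⟨τ, hτ⟩
      apply hτ
      intro q _
      have h0 : mult δ (fun i => b (τ i)) e = 0 := by
        funext y
        unfold mult
        simp
      rw [h0, eLpNorm_zero]
      exact zero_le
    rw [Nat.card_of_isEmpty]
    push_cast
    positivity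
  have hne : Nonempty ι := Fintype.card_pos_iff.1 hN
  set N : ℕ := Fintype.card ι with hNdef
  have hN1 : (1 : ℝ) ≤ N := by exact_mod_cast hN
  have hN0 : (0 : ℝ) < N := by linarith
  set R : ℝ := rhs n q₁ δ N with hR
  have hRpos : 0 < R := by
    rw [hR]
    unfold rhs
    positivity
  set F : Equiv.Perm ι → ℝ≥0∞ := fun τ =>
    eLpNorm (mult δ (fun i => b (τ i)) e) (ENNReal.ofReal q₁) volume with hF
  have hFt : ∀ τ, F τ ≠ ∞ := fun τ => mult_fin hn h1 h2.le _ hs
  set G : Equiv.Perm ι → ℝ := fun τ => (F τ).toReal with hG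
  have hp1 : 1 ≤ ENNReal.ofReal q₁ := by
    rw [← ENNReal.ofReal_one]
    exact ENNReal.ofReal_le_ofReal h2.le
  set s : ℝ := C₁ * δ ^ (((n : ℝ) - 1) / q₁) with hsdef
  have hs0 : 0 < s := by positivity
  have hstep : ∀ τ i j, G (τ * Equiv.swap i j) ≤ G τ + 2 * s := by
    intro τ i j
    set a : ι → Rn n := fun k => b (τ k) with ha
    set a' : ι → Rn n := fun k => b ((τ * Equiv.swap i j) k) with ha'
    set u : ι → Rn n → ℝ := fun k => (tube δ (a' k) (e k)).indicator (fun _ => (1 : ℝ)) with hu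
    have hum : ∀ k, Measurable (u k) := fun k => measurable_const.indicator (tube_meas _ _ _)
    have hu0 : ∀ k y, 0 ≤ u k y := fun k y => indicator_nonneg (fun _ _ => zero_le_one) y
    have hv0 : ∀ k y, 0 ≤ (tube δ (a k) (e k)).indicator (fun _ => (1 : ℝ)) y := fun k y =>
      indicator_nonneg (fun _ _ => zero_le_one) y
    have hpt : ∀ y, mult δ a' e y ≤ mult δ a e y + (u i y + u j y) := by
      intro y
      have h1 : ∀ k, (tube δ (a' k) (e k)).indicator (fun _ => (1 : ℝ)) y ≤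
          (tube δ (a k) (e k)).indicator (fun _ => (1 : ℝ)) y +
            ((if k = i then u i y else 0) + (if k = j then u j y else 0)) := by
        intro k
        by_cases hki : k = i
        · subst hki
          rw [if_pos rfl]
          have h4 : (0 : ℝ) ≤ if k = j then u j y else 0 := by
            split_ifs
            · exact hu0 _ _
            · exact le_rfl
          have h5 := hv0 k y
          have h6 : (tube δ (a' k) (e k)).indicator (fun _ => (1 : ℝ)) y = u k y := rfl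
          linarith
        · by_cases hkj : k = j
          · subst hkj
            rw [if_pos rfl, if_neg hki, zero_add]
            have h5 := hv0 k y
            have h6 : (tube δ (a' k) (e k)).indicator (fun _ => (1 : ℝ)) y = u k y := rfl
            linarith
          · have : a' k = a k := by
              rw [ha', ha]
              simp only [Equiv.Perm.mul_apply]
              rw [Equiv.swap_apply_of_ne_of_ne hki hkj]
            rw [this, if_neg hki, if_neg hkj]
            linarith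
      unfold mult
      refine (Finset.sum_le_sum fun k _ => h1 k).trans (le_of_eq ?_)
      rw [Finset.sum_add_distrib, Finset.sum_add_distrib, Finset.sum_ite_eq', Finset.sum_ite_eq',
        if_pos (Finset.mem_univ _), if_pos (Finset.mem_univ _)]
    have h7 : F (τ * Equiv.swap i j) ≤ F τ + ENNReal.ofReal (2 * s) := by
      have h8 : F (τ * Equiv.swap i j) ≤
          eLpNorm (mult δ a e + (u i + u j)) (ENNReal.ofReal q₁) volume := by
        refine eLpNorm_mono_real fun y => ?_
        rw [Real.norm_of_nonneg (mult_nonneg δ a' e y)]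
        exact hpt y
      refine h8.trans ((eLpNorm_add_le (mult_meas δ a e).aestronglyMeasurable
        ((hum i).add (hum j)).aestronglyMeasurable hp1).trans ?_)
      refine add_le_add le_rfl ((eLpNorm_add_le (hum i).aestronglyMeasurable
        (hum j).aestronglyMeasurable hp1).trans ?_)
      rw [two_mul, ENNReal.ofReal_add hs0.le hs0.le]
      exact add_le_add (ht _ _ δ hδ hs.2.1 (hs.2.2.1 i)) (ht _ _ δ hδ hs.2.1 (hs.2.2.1 j))
    have h9 := ENNReal.toReal_mono (ENNReal.add_ne_top.2 ⟨hFt τ, ENNReal.ofReal_ne_top⟩) h7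
    rw [ENNReal.toReal_add (hFt τ) ENNReal.ofReal_ne_top,
      ENNReal.toReal_ofReal (by positivity)] at h9
    exact h9
  have hdiff : ∀ τ i j, |G (τ * Equiv.swap i j) - G τ| ≤ 2 * s := by
    intro τ i j
    rw [abs_le]
    constructor
    · have h1 := hstep (τ * Equiv.swap i j) i j
      rw [mul_assoc, Equiv.swap_mul_self, mul_one] at h1
      linarith
    · have := hstep τ i j
      linarith
  have htail := perm_tail G (c := 2 * s) (t := R) (by positivity) hRpos.le hdiff
  -- the mean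
  have hmean : (∑ ρ, G ρ) / Fintype.card (Equiv.Perm ι) ≤ 12 * C * R := by
    let _ : MeasurableSpace ι := ⊤
    let _ : MeasurableSpace (Equiv.Perm ι) := ⊤
    have _ : MeasurableSingletonClass ι := ⟨fun _ => trivial⟩
    have _ : MeasurableSingletonClass (Equiv.Perm ι) := ⟨fun _ => trivial⟩
    have _ : IsProbabilityMeasure ((unif ι).map b) :=
      Measure.isProbabilityMeasure_map measurable_from_top.aemeasurable
    have h4 := (perm_pairwise (ι := ι)).map (b := b) measurable_from_top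
    have h5 := mean h2.le h3 (unif (Equiv.Perm ι)) ((unif ι).map b) (A := ENNReal.ofReal 2) (by
      rw [← ENNReal.ofReal_one]; exact ENNReal.ofReal_le_ofReal (by norm_num)) h4 δ e
    have h6 : (∫⁻ x, F x ∂(unif (Equiv.Perm ι))) ^ q₁ ≤ (ENNReal.ofReal (12 * C * R)) ^ q₁ := by
      refine (jensen _ h2.le (measurable_from_top)).trans (h5.trans ?_)
      have h7 := hb ι e δ hs
      calc 6 * ENNReal.ofReal 2 * eLpNorm (mult δ 0 e) (ENNReal.ofReal q₁) volume ^ q₁ ≤
            6 * ENNReal.ofReal 2 * ENNReal.ofReal (C * R) ^ q₁ :=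
            mul_le_mul' le_rfl (ENNReal.rpow_le_rpow h7 hq0.le)
        _ = ENNReal.ofReal (12 * (C * R) ^ q₁) := by
            rw [ENNReal.ofReal_rpow_of_nonneg (by positivity) hq0.le, ENNReal.ofReal_mul
              (by norm_num), show (12 : ℝ) = 6 * 2 by norm_num, ENNReal.ofReal_mul (by norm_num),
              ENNReal.ofReal_ofNat, ENNReal.ofReal_ofNat]
        _ ≤ ENNReal.ofReal ((12 * C * R) ^ q₁) := by
            apply ENNReal.ofReal_le_ofReal
            rw [show 12 * C * R = 12 * (C * R) by ring,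
              Real.mul_rpow (x := 12) (y := C * R) (by norm_num) (by positivity)]
            refine mul_le_mul_of_nonneg_right ?_ (by positivity)
            calc (12 : ℝ) = 12 ^ (1 : ℝ) := (Real.rpow_one _).symm
              _ ≤ _ := Real.rpow_le_rpow_of_exponent_le (by norm_num) h2.le
        _ = _ := by rw [ENNReal.ofReal_rpow_of_nonneg (by positivity) hq0.le]
    have h7 : ∫⁻ x, F x ∂(unif (Equiv.Perm ι)) ≤ ENNReal.ofReal (12 * C * R) :=
      (ENNReal.rpow_le_rpow_iff hq0).1 h6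
    have h8 : ∫⁻ x, F x ∂(unif (Equiv.Perm ι)) =
        (Fintype.card (Equiv.Perm ι) : ℝ≥0∞)⁻¹ * ∑ x, F x := by
      unfold unif
      rw [lintegral_smul_measure, lintegral_count, tsum_fintype, smul_eq_mul]
    rw [h8] at h7
    have h9 := ENNReal.toReal_mono ENNReal.ofReal_ne_top h7
    rw [ENNReal.toReal_mul, ENNReal.toReal_inv, ENNReal.toReal_natCast,
      ENNReal.toReal_sum (fun x _ => hFt x), ENNReal.toReal_ofReal (by positivity)] at h9
    calc (∑ ρ, G ρ) / Fintype.card (Equiv.Perm ι) =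
          (Fintype.card (Equiv.Perm ι) : ℝ)⁻¹ * ∑ ρ, G ρ := by rw [div_eq_inv_mul]
      _ ≤ 12 * C * R := h9
  have hle : (Nat.card {τ : Equiv.Perm ι // ¬ ∀ q : ℝ≥0∞, ENNReal.ofReal q₀ ≤ q →
        eLpNorm (mult δ (fun i => b (τ i)) e) q volume ≤
          ENNReal.ofReal ((12 * C + 1) * bd n q δ N)} : ℝ) ≤
      Nat.card {τ // (∑ ρ, G ρ) / Fintype.card (Equiv.Perm ι) + R ≤ G τ} := by
    have himp : ∀ τ : Equiv.Perm ι, (¬ ∀ q : ℝ≥0∞, ENNReal.ofReal q₀ ≤ q →
        eLpNorm (mult δ (fun i => b (τ i)) e) q volume ≤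
          ENNReal.ofReal ((12 * C + 1) * bd n q δ N)) →
        (∑ ρ, G ρ) / Fintype.card (Equiv.Perm ι) + R ≤ G τ := by
      intro τ hτ
      by_contra hcon
      push Not at hcon
      apply hτ
      intro q hq
      refine up hn h2 (by linarith) hδ _ e ?_ ((ENNReal.ofReal_le_ofReal (min_le_left _ _)).trans hq)
      have h4 : G τ ≤ (12 * C + 1) * R := by linarith
      change F τ ≤ _
      rw [← ENNReal.ofReal_toReal (hFt τ)]
      exact ENNReal.ofReal_le_ofReal h4
    exact_mod_cast Nat.card_le_card_of_injective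
      (fun x : {τ : Equiv.Perm ι // ¬ ∀ q : ℝ≥0∞, ENNReal.ofReal q₀ ≤ q →
        eLpNorm (mult δ (fun i => b (τ i)) e) q volume ≤
          ENNReal.ofReal ((12 * C + 1) * bd n q δ N)} =>
        (⟨x.1, himp _ x.2⟩ : {τ // (∑ ρ, G ρ) / Fintype.card (Equiv.Perm ι) + R ≤ G τ}))
      (fun x y hxy => Subtype.ext (by simpa using hxy))
  refine hle.trans (htail.trans ?_)
  refine mul_le_mul_of_nonneg_left (Real.exp_le_exp.2 (neg_le_neg ?_)) (Nat.cast_nonneg _)
  -- the exponent
  have e1 : R = δ ^ (((n : ℝ) - 1) / q₁) * (N : ℝ) ^ (1 - 1 / (q₁ * ((n : ℝ) - 1))) := rfl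
  have e2 : R ^ 2 / (8 * (2 * s) ^ 2 * N) =
      1 / (32 * C₁ ^ 2) * (N : ℝ) ^ (1 - 2 / (q₁ * ((n : ℝ) - 1))) := by
    have h4 : ((N : ℝ) ^ (1 - 1 / (q₁ * ((n : ℝ) - 1)))) ^ 2 =
        (N : ℝ) ^ (1 - 2 / (q₁ * ((n : ℝ) - 1))) * N := by
      rw [pow_two, ← Real.rpow_add hN0]
      conv_rhs => rw [← Real.rpow_one (N : ℝ), ← Real.rpow_mul (by positivity), one_mul,
        ← Real.rpow_add hN0]
      congr 1
      ring
    rw [e1, hsdef, mul_pow, h4]
    have h5 : 0 < δ ^ (((n : ℝ) - 1) / q₁) := by positivity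
    field_simp
    ring
  rw [e2]
  refine mul_le_mul_of_nonneg_left ?_ (by positivity)
  refine Real.rpow_le_rpow_of_exponent_le hN1 ?_
  have h6 : (n : ℝ) < q₁ * ((n : ℝ) - 1) := by
    rwa [div_lt_iff₀ (by linarith)] at h1
  have h7 : 2 / (q₁ * ((n : ℝ) - 1)) ≤ 2 / (n : ℝ) :=
    div_le_div_of_nonneg_left (by norm_num) hn0 h6.le
  linarith

end Pool.Agent.Q184.RM
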